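import Pool.Agent.L5helper88.NS.Num

/-! L10: the numerical part, with the additional factor. -/

set_option autoImplicit false

open Finset

namespace Pool.Agent.L5helper59.ZT

open Pool.Agent.L5helper88.CP Pool.Agent.L5helper88.NS

/-- L10 -/
theorem zt_num (m : ℕ) (hm : 1 ≤ m) (t : List (ℕ × ℕ)) (ht : ∀ a ∈ t, 1 ≤ a.2)
    (H : ∀ L : ℕ, 364 * 2 ^ (L + 1) ≤ m → ((((2 ^ L).factorial) ^ 2) ^ (2 * 2 ^ L) : ℝ) ≤
      (3 * (W t : ℝ)) ^ (2 * 2 ^ L * (2 * 2 ^ L) + 2) *
        (4 * PR (fun a b => (1 + (b : ℝ) / a) ^ 2) t)) :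
    ((m : ℝ) / 2 ^ 14) ^ (m ^ 2) ≤
      (t.map fun a => (a.2 : ℝ) ^ (m ^ 2) * (1 + 1 / (a.2 : ℝ)) ^ (2 ^ 21 * a.1)).prod := by
  obtain ⟨r0, r1⟩ := log_RHS ht (m ^ 2) (2 ^ 21)
  have hA := LA_nonneg ht
  have hG := LG_nonneg t
  have hm1 : (1 : ℝ) ≤ m := by exact_mod_cast hm
  have hm0 : (0 : ℝ) < m := by linarith
  rw [← Real.log_le_log_iff (by positivity) r0, r1, Real.log_pow,
    Real.log_div hm0.ne' (by norm_num), Real.log_pow]
  push_cast
  have hlog2 : 0 < Real.log 2 := Real.log_pos (by norm_num)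
  by_cases hY : Real.log m - 14 * Real.log 2 - LA t ≤ 0
  · have h1 : (m : ℝ) ^ 2 * (Real.log m - 14 * Real.log 2 - LA t) ≤ 0 :=
      mul_nonpos_of_nonneg_of_nonpos (by positivity) hY
    nlinarith [h1, hG]
  rw [not_le] at hY
  have hm14 : (2 : ℝ) ^ 14 ≤ m := by
    by_contra hlt
    rw [not_le] at hlt
    have h2 := Real.log_le_log hm0 hlt.le
    rw [Real.log_pow] at h2
    push_cast at h2
    linarith
  have hm2 : 2 * 364 ≤ m := by
    have h1 : 2 ^ 14 ≤ m := by exact_mod_cast hm14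
    omega
  obtain ⟨L, h1, h2⟩ := exists_level 364 m (by norm_num) hm2
  have h3 := H L h1
  have h4 : (m : ℝ) < 1456 * (2 ^ L : ℕ) := by
    have : m < 1456 * 2 ^ L := by
      rw [pow_add] at h2
      omega
    exact_mod_cast this
  obtain ⟨p0, p1⟩ := log_PR ht
  have hW0 : 1 ≤ W t := W_pos ht
  have hW : (0 : ℝ) < W t := by exact_mod_cast hW0
  have hf0 : (0 : ℝ) < ((2 ^ L).factorial : ℝ) := by exact_mod_cast (2 ^ L).factorial_pos
  have h5 := Real.log_le_log (by positivity) h3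
  rw [Real.log_mul (by positivity) (by positivity), Real.log_mul (by norm_num) p0.ne', p1,
    Real.log_pow, Real.log_pow, Real.log_pow,
    Real.log_mul (by norm_num) hW.ne', log_W ht] at h5
  have h6 := log_factorial_ge (2 ^ L)
  have h44 : Real.log 4 = 2 * Real.log 2 := by
    rw [show (4 : ℝ) = 2 ^ 2 by norm_num, Real.log_pow]
    norm_num
  have h33 : Real.log 3 ≤ 2 * Real.log 2 := by
    rw [← h44]
    exact Real.log_le_log (by norm_num) (by norm_num)
  push_cast at h4 h5 h6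
  set q : ℝ := (2 : ℝ) ^ L with hq
  have hq0 : 0 < q := by positivity
  have hq1 : (m : ℝ) / 1456 ≤ q := by
    rw [div_le_iff₀ (by norm_num)]
    linarith
  have h7 : Real.log m - Real.log 1456 ≤ Real.log q := by
    rw [← Real.log_div hm0.ne' (by norm_num)]
    exact Real.log_le_log (by positivity) hq1
  have h8 : Real.log 1456 + Real.log 3 ≤ 12.1 * Real.log 2 := by
    rw [← Real.log_mul (by norm_num) (by norm_num)]
    have h9 : Real.log ((1456 * 3 : ℝ) ^ 10) ≤ Real.log ((2 : ℝ) ^ 121) :=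
      Real.log_le_log (by norm_num) (by norm_num)
    rw [Real.log_pow, Real.log_pow] at h9
    norm_num at h9 ⊢
    linarith
  have h9 : 1 ≤ 1.45 * Real.log 2 := by
    have := Real.log_two_gt_d9
    linarith
  -- the main inequality
  have h10 : 4 * q ^ 2 * (Real.log q - 1 - Real.log 3 - LA t) ≤ 2 * LG t + 2 * Real.log m := by
    have h11 := mul_le_mul_of_nonneg_left h6 (by positivity : (0 : ℝ) ≤ 4 * q)
    have h12 : 2 * (Real.log 3 + LA t) + Real.log 4 ≤ 2 * Real.log m := by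
      rw [h44]
      linarith
    nlinarith [h11, h5, h12]
  have h12 : Real.log m - 14 * Real.log 2 - LA t + 0.45 * Real.log 2 ≤
      Real.log q - 1 - Real.log 3 - LA t := by
    linarith
  have h13 : (m : ℝ) ^ 2 ≤ (1456 * q) ^ 2 := pow_le_pow_left₀ hm0.le h4.le 2
  have h14 : (m : ℝ) ^ 2 * (Real.log m - 14 * Real.log 2 - LA t + 0.45 * Real.log 2) ≤
      (1456 * q) ^ 2 * (Real.log q - 1 - Real.log 3 - LA t) :=
    mul_le_mul h13 h12 (by linarith) (by positivity)
  have h15 : (1456 * q) ^ 2 * (Real.log q - 1 - Real.log 3 - LA t) =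
      529984 * (4 * q ^ 2 * (Real.log q - 1 - Real.log 3 - LA t)) := by ring
  rw [h15] at h14
  -- the slack
  have h16 : Real.log m ≤ (m : ℝ) / 2 ^ 14 - 1 + 14 * 0.6932 := by
    have e1 := Real.log_le_sub_one_of_pos (x := (m : ℝ) / 2 ^ 14) (by positivity)
    rw [Real.log_div hm0.ne' (by norm_num), Real.log_pow] at e1
    push_cast at e1
    have e2 := Real.log_two_lt_d9
    linarith
  have h17 : 1059968 * Real.log m ≤ (m : ℝ) ^ 2 * (0.45 * Real.log 2) := by
    have e1 : (0.3 : ℝ) ≤ 0.45 * Real.log 2 := by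
      have := Real.log_two_gt_d9
      linarith
    have e2 : (m : ℝ) ^ 2 * 0.3 ≤ (m : ℝ) ^ 2 * (0.45 * Real.log 2) :=
      mul_le_mul_of_nonneg_left e1 (by positivity)
    nlinarith [h16, hm14, e2, mul_le_mul_of_nonneg_left hm14 hm0.le]
  nlinarith [h14, h10, hG, h17]

end Pool.Agent.L5helper59.ZT
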