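import Pool.Agent.L5helper59.ZT.Defs

/-! L3: the generic path of a computation tree with zero tests. -/

set_option autoImplicit false

open Finset MvPolynomial Filter

namespace Pool.Agent.L5helper59.ZT

open Pool.Agent.L5helper88.Model

/-- The sizes on a path extend the sizes at its first node. -/
theorem Tree.sizes_append {σ : Type} (x : σ → ℂ) {l : List (RatFun ℂ σ)} {s : List ℕ}
    (T : Tree σ l s) : ∃ s'' : List ℕ, T.sizes x = s'' ++ s := by
  induction T with
  | leaf l s answer => exact ⟨[], rfl⟩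
  | solve l s n B β y hB hβ hdet hy next ih =>
    obtain ⟨s'', h⟩ := ih
    refine ⟨s'' ++ [n], ?_⟩
    have e : (Tree.solve l s n B β y hB hβ hdet hy next).sizes x = next.sizes x := rfl
    rw [e, h, List.append_assoc]
    rfl
  | test l s f hf zero nonzero ih1 ih2 =>
    have e : (Tree.test l s f hf zero nonzero).sizes x =
      if eval x f = 0 then zero.sizes x else nonzero.sizes x := rfl
    rw [e]
    split
    · exact ih1
    · exact ih2

/-- The generic path, for an arbitrary prime polynomial. -/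
theorem tree_generic' {σ : Type} {P : MvPolynomial σ ℂ} (hP : Prime P)
    {l : List (RatFun ℂ σ)} {s : List ℕ} (T : Tree σ l s) (hl : Systems l s) :
    ∃ Δ : MvPolynomial σ ℂ, Δ ≠ 0 ∧
      ((¬ P ∣ Δ ∧ ∃ b : Bool, ∀ x, eval x Δ ≠ 0 → T.run x = b) ∨
        ∃ (s' : List ℕ) (g : MvPolynomial σ ℂ), g ≠ 0 ∧ Solved (g * P) s' ∧
          ∀ x, eval x Δ ≠ 0 → ∃ s'' : List ℕ, T.sizes x = s'' ++ s') := by
  induction T with
  | leaf l s answer =>
    exact ⟨1, one_ne_zero, Or.inl ⟨fun h => hP.not_unit (isUnit_of_dvd_one h), answer,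
      fun _ _ => rfl⟩⟩
  | solve l s n B β y hB hβ hdet hy next ih =>
    exact ih (Systems.solve l s n B β y hl hB hβ hdet hy)
  | test l s f hf zero nonzero ih1 ih2 =>
    have er : ∀ x, (Tree.test l s f hf zero nonzero).run x =
      if eval x f = 0 then zero.run x else nonzero.run x := fun _ => rfl
    have es : ∀ x, (Tree.test l s f hf zero nonzero).sizes x =
      if eval x f = 0 then zero.sizes x else nonzero.sizes x := fun _ => rfl
    by_cases hf0 : f = 0
    · obtain ⟨Δ, hΔ, h⟩ := ih1 hl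
      refine ⟨Δ, hΔ, ?_⟩
      rcases h with ⟨h1, b, hb⟩ | ⟨s', g, hg, hs, h1⟩
      · refine Or.inl ⟨h1, b, fun x hx => ?_⟩
        rw [er, if_pos (by rw [hf0, map_zero])]
        exact hb x hx
      · refine Or.inr ⟨s', g, hg, hs, fun x hx => ?_⟩
        rw [es, if_pos (by rw [hf0, map_zero])]
        exact h1 x hx
    · by_cases hPf : P ∣ f
      · obtain ⟨g, hg⟩ := hPf
        have hg0 : g ≠ 0 := by
          rintro rfl
          exact hf0 (by rw [hg, mul_zero])
        refine ⟨1, one_ne_zero, Or.inr ⟨s, g, hg0, ⟨l, hl, ?_⟩, fun x _ =>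
          Tree.sizes_append x _⟩⟩
        rw [mul_comm, ← hg]
        exact hf
      · obtain ⟨Δ, hΔ, h⟩ := ih2 hl
        refine ⟨f * Δ, mul_ne_zero hf0 hΔ, ?_⟩
        have key : ∀ x, eval x (f * Δ) ≠ 0 → eval x f ≠ 0 ∧ eval x Δ ≠ 0 := by
          intro x hx
          rw [map_mul] at hx
          exact ⟨left_ne_zero_of_mul hx, right_ne_zero_of_mul hx⟩
        rcases h with ⟨h1, b, hb⟩ | ⟨s', g, hg, hs, h1⟩
        · refine Or.inl ⟨fun hd => ?_, b, fun x hx => ?_⟩
          · rcases hP.dvd_or_dvd hd with h2 | h2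
            · exact hPf h2
            · exact h1 h2
          · rw [er, if_neg (key x hx).1]
            exact hb x (key x hx).2
        · refine Or.inr ⟨s', g, hg, hs, fun x hx => ?_⟩
          rw [es, if_neg (key x hx).1]
          exact h1 x (key x hx).2

/-- The generic path. -/
theorem tree_generic (m : ℕ) (hP : Prime (perm ℂ m)) {l : List (RatFun ℂ (Fin m × Fin m))}
    {s : List ℕ} (hl : Systems l s) (T : Tree (Fin m × Fin m) l s) :
    ∃ Δ : MvPolynomial (Fin m × Fin m) ℂ, Δ ≠ 0 ∧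
      ((¬ perm ℂ m ∣ Δ ∧ ∃ b : Bool, ∀ x, eval x Δ ≠ 0 → T.run x = b) ∨
        ∃ (s' : List ℕ) (g : MvPolynomial (Fin m × Fin m) ℂ), g ≠ 0 ∧ Solved (g * perm ℂ m) s' ∧
          ∀ x, eval x Δ ≠ 0 → ∃ s'' : List ℕ, T.sizes x = s'' ++ s') :=
  tree_generic' hP T hl

theorem eval_perm (m : ℕ) (x : Fin m × Fin m → ℂ) :
    eval x (perm ℂ m) = Matrix.permanent (Matrix.of fun i j => x (i, j)) := by
  unfold perm Matrix.permanent
  simp [map_sum, map_prod]

/-- A nonzero polynomial has a nonzero value. -/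
theorem exists_eval_ne {σ : Type} {p : MvPolynomial σ ℂ} (hp : p ≠ 0) :
    ∃ x : σ → ℂ, eval x p ≠ 0 := by
  by_contra h
  push Not at h
  exact hp (MvPolynomial.funext fun x => by rw [h x, map_zero])

/-- L3 (uses L1, L2) -/
theorem exists_test_of (m : ℕ) (L1 : Irreducible (perm ℂ m))
    (L2 : ∀ p : MvPolynomial (Fin m × Fin m) ℂ, ¬ perm ℂ m ∣ p →
      ∃ x : Fin m × Fin m → ℂ, eval x (perm ℂ m) = 0 ∧ eval x p ≠ 0)
    (T : Tree (Fin m × Fin m) [] []) (hT : Decides T) :
    ∃ (Δ : MvPolynomial (Fin m × Fin m) ℂ) (s' : List ℕ) (g : MvPolynomial (Fin m × Fin m) ℂ),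
      Δ ≠ 0 ∧ g ≠ 0 ∧ Solved (g * perm ℂ m) s' ∧
      ∀ x, eval x Δ ≠ 0 → ∃ s'' : List ℕ, T.sizes x = s'' ++ s' := by
  have hP : Prime (perm ℂ m) := UniqueFactorizationMonoid.irreducible_iff_prime.1 L1
  obtain ⟨Δ, hΔ, h⟩ := tree_generic m hP Systems.nil T
  rcases h with ⟨h1, b, hb⟩ | ⟨s', g, hg, hs, h1⟩
  · exfalso
    obtain ⟨x, hx0, hx1⟩ := L2 Δ h1
    have e1 : T.run x = true := (hT x).2 (by rw [← eval_perm]; exact hx0)
    obtain ⟨y, hy⟩ := exists_eval_ne (mul_ne_zero hP.ne_zero hΔ)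
    rw [map_mul] at hy
    have e2 : T.run y ≠ true := by
      intro h2
      have h3 := (hT y).1 h2
      rw [← eval_perm] at h3
      exact left_ne_zero_of_mul hy h3
    rw [hb x hx1] at e1
    rw [hb y (right_ne_zero_of_mul hy)] at e2
    exact e2 e1
  · exact ⟨Δ, s', g, hΔ, hg, hs, h1⟩

end Pool.Agent.L5helper59.ZT
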